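import Pool.Agent.H56.Mass6

/-!
MP_f4cb44_an, Q1: a nonincreasing positive sequence of Minkowski dimension `d`, `0 < d < 1`, is
Minkowski measurable of dimension `d` if and only if its mass distribution function times `ε ^ d`
has a positive finite limit as `ε` tends to zero from the right; moreover the two limits `L` and `c`
determine each other by `c = L ^ d / (1 - d)`.
-/

namespace Pool.Agent.Results.MP_f4cb44_an.MassMeasurable

open Filter Topology Pool.Agent.H56.Mass

theorem result : ∀ d : ℝ, 0 < d → d < 1 → ∀ l : ℕ → ℝ, (∀ j, 0 < l j) → Antitone l →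
    HasMinkowskiDim l d →
    (IsMinkowskiMeasurable l d ↔ ∃ c : ℝ, 0 < c ∧
      Tendsto (fun ε : ℝ => (massDist l ε : ℝ) * ε ^ d) (𝓝[>] 0) (𝓝 c)) ∧
    ∀ L : ℝ, 0 < L →
      (Tendsto (fun j : ℕ => l j * ((j : ℝ) + 1) ^ (1 / d)) atTop (𝓝 L) ↔
        Tendsto (fun ε : ℝ => (massDist l ε : ℝ) * ε ^ d) (𝓝[>] 0) (𝓝 (L ^ d / (1 - d)))) :=
  fun d hd0 hd1 l hpos hanti hdim => main d hd0 hd1 l hpos hanti hdim

end Pool.Agent.Results.MP_f4cb44_an.MassMeasurable
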